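import Pool.Agent.H61.CA.C0

/-!
# CH-ALL, CORE C6a: height coordinates of `G`, the embedding `c` and the standard ideals
-/

open MvPowerSeries

namespace Pool.Agent.H1.CA

open Pool.Agent.H13.CA Pool.Agent.H61.CA

variable {k : Type*} [Field k] {p s : ℕ} {F : FormalGroup (MvPowerSeries (Fin (s + 1)) k)}
  {L : Type*} [Field L] [Algebra k L] [Algebra (PowerSeries k) L]

private theorem Ij_X (j : ℕ) : H86.NF.Ij (fun i : Fin s => (X i : MvPowerSeries (Fin s) L)) j = Istd L s j := by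
  unfold H86.NF.Ij Istd
  congr 1
  ext x
  constructor
  · rintro ⟨l, hl, rfl⟩
    exact ⟨l, hl, rfl⟩
  · rintro ⟨l, hl, rfl⟩
    exact ⟨l, hl, rfl⟩

private theorem iota_mem (D : Slice k p s F L) {j : ℕ} (hj : j ≤ s) {f : MvPowerSeries (Fin (s + 1)) k}
    (hf : f ∈ Istd k (s + 1) j) :
    D.ι f ∈ H86.NF.Ij (fun i : Fin s => (X i : MvPowerSeries (Fin s) L)) j := by
  have h1 : Istd k (s + 1) j ≤ (H86.NF.Ij (fun i : Fin s => (X i : MvPowerSeries (Fin s) L)) j).comap
      (D.ι : MvPowerSeries (Fin (s + 1)) k →+* MvPowerSeries (Fin s) L) := by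
    unfold Istd
    rw [Ideal.span_le]
    rintro _ ⟨i, hi, rfl⟩
    obtain ⟨i', rfl⟩ : ∃ i' : Fin s, i = i'.castSucc := ⟨⟨i, by omega⟩, rfl⟩
    rw [SetLike.mem_coe, Ideal.mem_comap]
    have h2 := H86.NF.mem_Ij_of_lt (fun i : Fin s => (X i : MvPowerSeries (Fin s) L)) (j := j) (l := i') hi
    have h3 : (D.ι : MvPowerSeries (Fin (s + 1)) k →+* MvPowerSeries (Fin s) L) (X i'.castSucc) = X i' :=
      D.hι.low i'
    rw [h3]
    exact h2
  exact h1 hf

theorem ht_G [Fact p.Prime] [CharP k p] (hF : IsLT k p (s + 1) F)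
    (hinj : Function.Injective (algebraMap (PowerSeries k) L)) (D : Slice k p s F L) :
    H86.NF.HT p (fun j : Fin s => (X j : MvPowerSeries (Fin s) L)) (mulSer D.G p) := by
  have h1 : H86.NF.HT p (fun j : Fin s => (X j : MvPowerSeries (Fin s) L))
      (mulSer (F.map (D.ι : MvPowerSeries (Fin (s + 1)) k →+* MvPowerSeries (Fin s) L)) p) := by
    rw [mulSer_map]
    refine ⟨fun j i hi => ?_, fun j => ⟨1, isUnit_one, ?_⟩, fun i hi => ?_, ?_⟩
    · rw [PowerSeries.coeff_map]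
      exact iota_mem D j.2.le (hF.low j (by omega) i hi)
    · have h := iota_mem D j.2.le (hF.mid j.castSucc)
      rw [map_sub, D.hι.low] at h
      rw [PowerSeries.coeff_map, one_mul]
      exact h
    · rw [PowerSeries.coeff_map]
      exact iota_mem D le_rfl (hF.low s (by omega) i hi)
    · refine ⟨D.ι (X (Fin.last s)), ?_, ?_⟩
      · rw [MvPowerSeries.isUnit_iff_constantCoeff, D.hι.res, D.hπ.high, isUnit_iff_ne_zero]
        intro h
        have h2 := hinj (h.trans (map_zero _).symm)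
        exact PowerSeries.X_ne_zero h2
      · have h := iota_mem D le_rfl (hF.mid (Fin.last s))
        rw [map_sub] at h
        rw [PowerSeries.coeff_map]
        exact h
  exact h1.conj (Nat.Prime.pos Fact.out) D.hB.1 D.hBu (cc_mulSer _ p) (D.hB.mulSer p)

theorem span_ww [Fact p.Prime] [CharP k p] (hF : IsLT k p (s + 1) F)
    (hinj : Function.Injective (algebraMap (PowerSeries k) L)) (D : Slice k p s F L) {j : ℕ}
    (hj : j ≤ s) : H86.NF.Ij (ww D) j = Istd L s j := by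
  rw [← Ij_X]
  exact (ht_G hF hinj D).span_eq hj

theorem Sub.inj {D : Slice k p s F L} (E : Sub D) : Function.Injective E.c := by
  intro f g h
  rw [E.hcψ, E.hcψ] at h
  have h1 := E.ψ.injective h
  ext d
  have h2 := congrArg (MvPowerSeries.coeff d) h1
  rw [MvPowerSeries.coeff_map, MvPowerSeries.coeff_map] at h2
  exact (algebraMap k L).injective h2

theorem Sub.map_Istd [Fact p.Prime] [CharP k p] (hF : IsLT k p (s + 1) F)
    (hinj : Function.Injective (algebraMap (PowerSeries k) L)) {D : Slice k p s F L} (E : Sub D)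
    {j : ℕ} (hj : j ≤ s) :
    (Istd k s j).map (E.c : MvPowerSeries (Fin s) k →+* MvPowerSeries (Fin s) L) =
      Istd L s j := by
  rw [← span_ww hF hinj D hj]
  unfold H86.NF.Ij Istd
  rw [Ideal.map_span]
  congr 1
  ext x
  constructor
  · rintro ⟨_, ⟨i, hi, rfl⟩, rfl⟩
    refine ⟨i, hi, ?_⟩
    show ww D i = E.c (X i)
    rw [E.hcψ, MvPowerSeries.map_X, E.hψ]
  · rintro ⟨i, hi, rfl⟩
    refine ⟨X i, ⟨i, hi, rfl⟩, ?_⟩
    show E.c (X i) = ww D i
    rw [E.hcψ, MvPowerSeries.map_X, E.hψ]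

private theorem psi_map [Fact p.Prime] [CharP k p] (hF : IsLT k p (s + 1) F)
    (hinj : Function.Injective (algebraMap (PowerSeries k) L)) {D : Slice k p s F L} (E : Sub D)
    {j : ℕ} (hj : j ≤ s) :
    (Istd L s j).map (E.ψ : MvPowerSeries (Fin s) L →+* MvPowerSeries (Fin s) L) = Istd L s j := by
  conv_rhs => rw [← span_ww hF hinj D hj]
  unfold H86.NF.Ij Istd
  rw [Ideal.map_span]
  congr 1
  ext x
  constructor
  · rintro ⟨_, ⟨i, hi, rfl⟩, rfl⟩
    exact ⟨i, hi, (E.hψ i).symm⟩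
  · rintro ⟨i, hi, rfl⟩
    exact ⟨X i, ⟨i, hi, rfl⟩, E.hψ i⟩

theorem Sub.mem_iff [Fact p.Prime] [CharP k p] (hF : IsLT k p (s + 1) F)
    (hinj : Function.Injective (algebraMap (PowerSeries k) L)) {D : Slice k p s F L} (E : Sub D)
    {j : ℕ} (hj : j ≤ s) (f : MvPowerSeries (Fin s) k) :
    E.c f ∈ Istd L s j ↔ f ∈ Istd k s j := by
  rw [← comap_Istd (k := k) (K := L), E.hcψ]
  constructor
  · intro h
    rw [← psi_map hF hinj E hj] at h
    obtain ⟨y, hy, he⟩ := (Ideal.mem_map_iff_of_surjective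
      (E.ψ : MvPowerSeries (Fin s) L →+* MvPowerSeries (Fin s) L) E.ψ.surjective).1 h
    have h1 : y = MvPowerSeries.map (algebraMap k L) f := E.ψ.injective he
    rwa [← h1]
  · intro h
    rw [← psi_map hF hinj E hj]
    exact Ideal.mem_map_of_mem (E.ψ : MvPowerSeries (Fin s) L →+* MvPowerSeries (Fin s) L) h

end Pool.Agent.H1.CA
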